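import Mathlib

open Matrix

namespace Pool.Agent.Results.MP_f77be9_al.NoAntiauto

/-- An irreducible tridiagonal square matrix. -/
def IrredTridiag {K : Type} [Field K] {n : ℕ} (B : Matrix (Fin n) (Fin n) K) : Prop :=
  ∀ i j : Fin n, (1 < |(i : ℤ) - (j : ℤ)| → B i j = 0) ∧ (|(i : ℤ) - (j : ℤ)| = 1 → B i j ≠ 0)

/-- Some ordered basis makes `A` diagonal and both `B` and `C` irreducible tridiagonal. -/
def DiagTriTri {K V : Type} [Field K] [AddCommGroup V] [Module K V] (A B C : Module.End K V) :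
    Prop :=
  ∃ (n : ℕ) (b : Module.Basis (Fin n) K V),
    (LinearMap.toMatrix b b A).IsDiag ∧ IrredTridiag (LinearMap.toMatrix b b B) ∧
      IrredTridiag (LinearMap.toMatrix b b C)

/-- Leonard triple. -/
def IsLeonardTriple {K V : Type} [Field K] [AddCommGroup V] [Module K V]
    (A B C : Module.End K V) : Prop :=
  DiagTriTri A B C ∧ DiagTriTri B A C ∧ DiagTriTri C A B

lemma dtt_of {K : Type} [Field K] (A B C P Q D T U : Matrix (Fin 3) (Fin 3) K) (h1 : P * Q = 1)
    (h2 : A * P = P * D) (h3 : B * P = P * T) (h4 : C * P = P * U) (hD : D.IsDiag)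
    (hT : IrredTridiag T) (hU : IrredTridiag U) :
    DiagTriTri (Matrix.toLin' A) (Matrix.toLin' B) (Matrix.toLin' C) := by
  have h1' : Q * P = 1 := mul_eq_one_comm.1 h1
  let e : (Fin 3 → K) ≃ₗ[K] (Fin 3 → K) := Matrix.toLin'OfInv h1 h1'
  let b : Module.Basis (Fin 3) K (Fin 3 → K) := (Pi.basisFun K (Fin 3)).map e.symm
  have key : ∀ M N : Matrix (Fin 3) (Fin 3) K, M * P = P * N →
      LinearMap.toMatrix b b (Matrix.toLin' M) = N := by
    intro M N hMN
    rw [show N = Q * M * P by rw [Matrix.mul_assoc, hMN, ← Matrix.mul_assoc, h1', Matrix.one_mul]]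
    ext i j
    rw [LinearMap.toMatrix_apply]
    simp only [b, Module.Basis.map_apply, Module.Basis.map_repr, LinearEquiv.symm_symm,
      LinearEquiv.trans_apply, Pi.basisFun_repr, Pi.basisFun_apply]
    change (Q *ᵥ (M *ᵥ (P *ᵥ Pi.single j 1))) i = _
    rw [Matrix.mulVec_mulVec, Matrix.mulVec_mulVec, Matrix.mulVec_single_one]
    rfl
  exact ⟨3, b, by rw [key _ _ h2]; exact hD, by rw [key _ _ h3]; exact hT,
    by rw [key _ _ h4]; exact hU⟩

/-- An antiautomorphism of `End(V)`: a linear bijection reversing products. -/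
def IsAntiauto {K V : Type} [Field K] [AddCommGroup V] [Module K V]
    (σ : Module.End K V ≃ₗ[K] Module.End K V) : Prop :=
  ∀ X Y, σ (X * Y) = σ Y * σ X

/-- The commutator `[r, s] = rs - sr`. -/
def comm {K V : Type} [Field K] [AddCommGroup V] [Module K V] (r s : Module.End K V) :
    Module.End K V := r * s - s * r

/-- `r` is a scalar multiple of `s`. -/
def IsMultiple {K V : Type} [Field K] [AddCommGroup V] [Module K V] (r s : Module.End K V) :
    Prop := ∃ c : K, r = c • s

/-- Some antiautomorphism fixes `x` and sends each of `[x, y]`, `[x, z]` to a scalar multiple of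
the other one. -/
def HasSwap {K V : Type} [Field K] [AddCommGroup V] [Module K V] (x y z : Module.End K V) :
    Prop :=
  ∃ σ : Module.End K V ≃ₗ[K] Module.End K V, IsAntiauto σ ∧ σ x = x ∧
    IsMultiple (σ (comm x y)) (comm x z) ∧ IsMultiple (σ (comm x z)) (comm x y)

theorem result (K : Type) [Field K] [LinearOrder K] [IsStrictOrderedRing K] :
    ∃ x y z : Module.End K (Fin 3 → K), IsLeonardTriple x y z ∧ ¬ HasSwap x y z := by
  let A : Matrix (Fin 3) (Fin 3) K := !![2, 0, 0; 0, 0, 0; 0, 0, -2]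
  let B : Matrix (Fin 3) (Fin 3) K := !![0, 2, 0; 1, 0, 1; 0, 2, 0]
  let C : Matrix (Fin 3) (Fin 3) K := !![10, 8, 0; -4, 0, 4; 0, -8, -10]
  refine ⟨Matrix.toLin' A, Matrix.toLin' B, Matrix.toLin' C, ⟨?_, ?_, ?_⟩, ?_⟩
  · refine dtt_of A B C !![0, 0, 1; 0, 1, 0; 1, 0, 0]
      !![0, 0, 1; 0, 1, 0; 1, 0, 0]
      !![-2, 0, 0; 0, 0, 0; 0, 0, 2]
      !![0, 2, 0; 1, 0, 1; 0, 2, 0]
      !![-10, -8, 0; 4, 0, -4; 0, 8, 10] ?_ ?_ ?_ ?_ ?_ ?_ ?_
    · ext i j; fin_cases i <;> fin_cases j <;> simp [Matrix.mul_apply, Fin.sum_univ_three] <;> norm_num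
    · ext i j; fin_cases i <;> fin_cases j <;>
        simp [A, B, C, Matrix.mul_apply, Fin.sum_univ_three] <;> norm_num
    · ext i j; fin_cases i <;> fin_cases j <;>
        simp [A, B, C, Matrix.mul_apply, Fin.sum_univ_three] <;> norm_num
    · ext i j; fin_cases i <;> fin_cases j <;>
        simp [A, B, C, Matrix.mul_apply, Fin.sum_univ_three] <;> norm_num
    · intro i j hij; fin_cases i <;> fin_cases j <;> simp at hij ⊢
    · intro i j; fin_cases i <;> fin_cases j <;> simp
    · intro i j; fin_cases i <;> fin_cases j <;> simp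
  · refine dtt_of B A C !![1, 1, 1; -1, 0, 1; 1, -1, 1]
      !![1/4, -1/2, 1/4; 1/2, 0, -1/2; 1/4, 1/2, 1/4]
      !![-2, 0, 0; 0, 0, 0; 0, 0, 2]
      !![0, 1, 0; 2, 0, 2; 0, 1, 0]
      !![0, 9, 0; 2, 0, 18; 0, 1, 0] ?_ ?_ ?_ ?_ ?_ ?_ ?_
    · ext i j; fin_cases i <;> fin_cases j <;> simp [Matrix.mul_apply, Fin.sum_univ_three] <;> norm_num
    · ext i j; fin_cases i <;> fin_cases j <;>
        simp [A, B, C, Matrix.mul_apply, Fin.sum_univ_three] <;> norm_num
    · ext i j; fin_cases i <;> fin_cases j <;>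
        simp [A, B, C, Matrix.mul_apply, Fin.sum_univ_three] <;> norm_num
    · ext i j; fin_cases i <;> fin_cases j <;>
        simp [A, B, C, Matrix.mul_apply, Fin.sum_univ_three] <;> norm_num
    · intro i j hij; fin_cases i <;> fin_cases j <;> simp at hij ⊢
    · intro i j; fin_cases i <;> fin_cases j <;> simp
    · intro i j; fin_cases i <;> fin_cases j <;> simp
  · refine dtt_of C A B !![1, 4, 4; -2, -5, -2; 4, 4, 1]
      !![1/9, 4/9, 4/9; -2/9, -5/9, -2/9; 4/9, 4/9, 1/9]
      !![-6, 0, 0; 0, 0, 0; 0, 0, 6]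
      !![-10/3, -8/3, 0; 4/3, 0, -4/3; 0, 8/3, 10/3]
      !![0, -2, 0; -1, 0, -1; 0, -2, 0] ?_ ?_ ?_ ?_ ?_ ?_ ?_
    · ext i j; fin_cases i <;> fin_cases j <;> simp [Matrix.mul_apply, Fin.sum_univ_three] <;> norm_num
    · ext i j; fin_cases i <;> fin_cases j <;>
        simp [A, B, C, Matrix.mul_apply, Fin.sum_univ_three] <;> norm_num
    · ext i j; fin_cases i <;> fin_cases j <;>
        simp [A, B, C, Matrix.mul_apply, Fin.sum_univ_three] <;> norm_num
    · ext i j; fin_cases i <;> fin_cases j <;>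
        simp [A, B, C, Matrix.mul_apply, Fin.sum_univ_three] <;> norm_num
    · intro i j hij; fin_cases i <;> fin_cases j <;> simp at hij ⊢
    · intro i j; fin_cases i <;> fin_cases j <;> simp
    · intro i j; fin_cases i <;> fin_cases j <;> simp
  · rintro ⟨σ, hσ, -, ⟨c, hc⟩, -⟩
    unfold comm at hc
    let W : Matrix (Fin 3) (Fin 3) K := !![0, 4, 0; -2, 0, 2; 0, -4, 0]
    let Z : Matrix (Fin 3) (Fin 3) K := !![0, 16, 0; 8, 0, 8; 0, 16, 0]
    have mm : ∀ M N : Matrix (Fin 3) (Fin 3) K,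
        Matrix.toLin' M * Matrix.toLin' N = Matrix.toLin' (M * N) := by
      intro M N; rw [Matrix.toLin'_mul]; rfl
    have hW : Matrix.toLin' A * Matrix.toLin' B - Matrix.toLin' B * Matrix.toLin' A =
        Matrix.toLin' W := by
      rw [mm, mm, ← map_sub]; congr 1
      ext i j; fin_cases i <;> fin_cases j <;>
        simp [A, B, W, Matrix.mul_apply, Fin.sum_univ_three] <;> norm_num
    have hZ : Matrix.toLin' A * Matrix.toLin' C - Matrix.toLin' C * Matrix.toLin' A =
        Matrix.toLin' Z := by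
      rw [mm, mm, ← map_sub]; congr 1
      ext i j; fin_cases i <;> fin_cases j <;>
        simp [A, C, Z, Matrix.mul_apply, Fin.sum_univ_three] <;> norm_num
    have hW3 : Matrix.toLin' W * (Matrix.toLin' W * Matrix.toLin' W) =
        (-16 : K) • Matrix.toLin' W := by
      rw [mm, mm, ← map_smul]; congr 1
      ext i j; fin_cases i <;> fin_cases j <;>
        simp [W, Matrix.mul_apply, Fin.sum_univ_three] <;> norm_num
    have hZ3 : Matrix.toLin' Z * Matrix.toLin' Z * Matrix.toLin' Z =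
        (256 : K) • Matrix.toLin' Z := by
      rw [mm, mm, ← map_smul]; congr 1
      ext i j; fin_cases i <;> fin_cases j <;>
        simp [Z, Matrix.mul_apply, Fin.sum_univ_three] <;> norm_num
    rw [hW, hZ] at hc
    have h1 := congrArg σ hW3
    rw [hσ, hσ, map_smul, hc, smul_mul_smul_comm, smul_mul_smul_comm, hZ3, smul_smul,
      smul_smul] at h1
    have h2 := congrFun (LinearMap.congr_fun h1 (Pi.single 1 1)) 0
    simp [Z] at h2
    have hc0 : c = 0 := by
      have h3 : c * (256 * (c * c) + 16) = 0 := by linear_combination (1 / 16 : K) * h2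
      rcases mul_eq_zero.1 h3 with h | h
      · exact h
      · nlinarith [mul_self_nonneg c]
    rw [hc0, zero_smul, map_eq_zero_iff _ σ.injective] at hc
    have h4 := congrFun (LinearMap.congr_fun hc (Pi.single 1 1)) 0
    simp [W] at h4

end Pool.Agent.Results.MP_f77be9_al.NoAntiauto
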